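import Mathlib
import Pool.Agent.Lib.MP_60ed70_an.Defs
import Pool.Agent.Lib.MP_60ed70_an.Fin

/-!
# MP_60ed70_an: the nucleus of a compact set need not lie in its core

We work on the complex surface `ℂ × P¹` with the compact set
`K = {|z| = 1} × P¹ ∪ {|z| ≤ 1} × {0}`. No spherical cut removes anything from `K`, so its nucleus
is `K`; but `C |z|² + θ(z)² |w|²` with a cut-off function `θ` is smooth and plurisubharmonic near
`K` and strictly plurisubharmonic at `(0, 0)`.

The definitions `leviForm`, `SmoothPshAt`, `StrictAt`, `core`, `cap`, `hat`, `IsCut` and `nucleus`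
are in `Pool.Agent.Lib.MP_60ed70_an.Defs`.
-/

namespace Pool.Agent.Results.MP_60ed70_an.NucleusNotInCore

open scoped Manifold ContDiff
open Pool.Agent.Lib.MP_60ed70_an

/-- There are a complex manifold `M` of dimension two, a compact set `K` in `M`, and a point `ζ` of
the nucleus of `K` at which some function that is smooth and plurisubharmonic on a neighbourhood of
`K` is strictly plurisubharmonic. In particular the nucleus of `K` is not contained in the core. -/
theorem result :
    ∃ (M : Type) (_ : TopologicalSpace M) (_ : T2Space M) (_ : SecondCountableTopology M)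
      (_ : ChartedSpace (EuclideanSpace ℂ (Fin 2)) M)
      (_ : IsManifold 𝓘(ℂ, EuclideanSpace ℂ (Fin 2)) ω M) (K : Set M),
      IsCompact K ∧ ¬ nucleus 2 K ⊆ core 2 K ∧
      ∃ ζ ∈ nucleus 2 K, ∃ (U : Set M) (φ : M → ℝ), IsOpen U ∧ K ⊆ U ∧
        (∀ x ∈ U, SmoothPshAt 2 φ x) ∧ StrictAt 2 φ ζ := by
  refine ⟨MM, inferInstance, inferInstance, inferInstance, inferInstance, inferInstance, KK,
    isCompact_KK, fun h => zeta_not_core (h zeta_nucleus), zeta, zeta_nucleus, ?_⟩
  by_contra h
  exact zeta_not_core ⟨zeta_mem, h⟩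

end Pool.Agent.Results.MP_60ed70_an.NucleusNotInCore
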